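import Pool.Agent.H554V.Final
import Pool.Agent.H554V.Z2c

/-!
# The statement (S) on group von Neumann algebras in ultrapowers of `R` is not provable in ZFC

Part 1 (in ZFC): the combinatorial statement `Phi B ev` implies that (S) fails: for the
hyperfinite II₁ factor `R` there are a group `Γ` and a free ultrafilter `U` on `ℕ` such that `Γ`
embeds into the unitary group of the tracial ultrapower `R^U` but `L(Γ)` does not embed into `R^U`.
In fact `Γ` is the unitary group of `R^U`.
Part 2: for suitable ground model objects `B`, `ev` the statement `Phi B ev` holds in the extension
by some forcing notion. The conditions are pairs of an infinite set `E` of natural numbers and a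
countable support product of sequences `S(0), S(1), ...` of finite sets of unbounded sizes. The sets
`E` of the generic filter generate the ultrafilter, and the generic functions give the unitaries
which cannot be treated simultaneously by a homomorphism with all traces equal to zero.
-/

namespace Pool.Agent.Results.MP_0dc0fb_an.ConsistentFailure

open Pool.Agent.H554V Pool.Agent.Helper669.Forcing Pool.Agent.Helper278 Pool.Agent.Helper436.SM

/-- It is consistent that (S) fails: a hypothesis implying the failure of (S) (first part) is
forced (second part). -/
theorem result :
    (∀ (R K : Type) (B : R → Set ℕ) (ev : K → List ℕ → ℕ), Phi B ev →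
      ∃ (H : Type) (_ : NormedAddCommGroup H) (_ : InnerProductSpace ℂ H) (_ : CompleteSpace H)
        (N : VonNeumannAlgebra H) (ρ : Elt N → ℂ), IsHyperfiniteII N ρ ∧ ¬ HoldsS N ρ) ∧
    ∃ (R K : Type) (B : R → Set ℕ) (ev : K → List ℕ → ℕ) (P : Type) (_ : Preorder P),
      Nonempty P ∧ ∀ p : P, p ∈ ForcedPhi P B ev :=
  ⟨main_zfc, main_forced⟩

end Pool.Agent.Results.MP_0dc0fb_an.ConsistentFailure
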